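import Pool.Agent.W184.NV.Defs

set_option autoImplicit false

/-!
# NV-IND: independence of blocks
-/

namespace Pool.Agent.W646.NV

open MeasureTheory Set ProbabilityTheory
open scoped BigOperators
open scoped ENNReal
open Pool.Agent.W184.NV

/-- law of the family of restrictions to disjoint blocks -/
lemma law_blocks {P : Finset ℕ} (ν : ℕ → Measure Ci) (hν : ∀ p ∈ P, IsProbabilityMeasure (ν p))
    {J : ℕ} (B : Fin J → Finset ℕ) (hB : ∀ j, B j ⊆ P)
    (hd : ∀ i j, i ≠ j → Disjoint (B i) (B j)) :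
    (Measure.pi fun p : P => ν p).map
      (fun (ω : P → Ci) (j : Fin J) (q : B j) => ω ⟨q, hB j q.2⟩) =
      Measure.pi fun j => Measure.pi fun q : B j => ν q := by
  classical
  have i1 : ∀ p : P, IsProbabilityMeasure (ν p) := fun p => hν p p.2
  have i2 : ∀ j : Fin J, ∀ q : B j, IsProbabilityMeasure (ν q) := fun j q => hν q (hB j q.2)
  let e : (Σ j : Fin J, B j) → P := fun s => ⟨s.2, hB s.1 s.2.2⟩
  have he : Function.Injective e := by
    rintro ⟨i, q⟩ ⟨j, r⟩ h
    have h' : (q : ℕ) = r := congrArg Subtype.val h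
    have hij : i = j := by
      by_contra hne
      exact Finset.disjoint_left.1 (hd i j hne) q.2 (h' ▸ r.2)
    subst hij
    have : q = r := Subtype.ext h'
    rw [this]
  have h1 : iIndepFun (fun (p : P) (ω : P → Ci) => ω p) (Measure.pi fun p : P => ν p) :=
    iIndepFun_pi (X := fun _ => id) fun _ => aemeasurable_id
  have h2 := h1.precomp he
  have h3 := (iIndepFun_iff_map_fun_eq_pi_map
    (fun s => (measurable_pi_apply (e s)).aemeasurable)).1 h2
  have h4 : ∀ p : P, (Measure.pi fun p : P => ν p).map (fun ω => ω p) = ν p := fun p =>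
    (measurePreserving_eval (fun p : P => ν p) p).map_eq
  have h5 : (Measure.pi fun p : P => ν p).map (fun (ω : P → Ci) (s : Σ j : Fin J, B j) => ω (e s)) =
      Measure.pi fun s : (Σ j : Fin J, B j) => ν s.2 := by
    refine h3.trans ?_
    congr 1
    funext s
    exact h4 (e s)
  have h6 := Measure.infinitePi_map_piCurry (ι := Fin J) (κ := fun j => B j)
    (X := fun _ _ => Ci) (fun j q => ν q)
  rw [Measure.infinitePi_eq_pi, Measure.infinitePi_eq_pi] at h6
  simp_rw [Measure.infinitePi_eq_pi] at h6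
  have hm : Measurable (fun (ω : P → Ci) (s : Σ j : Fin J, B j) => ω (e s)) :=
    measurable_pi_lambda _ fun s => measurable_pi_apply _
  rw [← h6, ← h5, Measure.map_map (MeasurableEquiv.measurable _) hm]
  rfl

theorem ind : S_Tilt → S_Ind := by
  intro ht P hP t κ J B hB hd G hG hκ hGκ
  have hν : ∀ p ∈ P, IsProbabilityMeasure (nu p t) := fun p hp => ht.1 p t (hP p hp)
  have i2 : ∀ j : Fin J, ∀ q : B j, IsProbabilityMeasure (nu q t) :=
    fun j q => hν q (hB j q.2)
  have i1 : ∀ p : P, IsProbabilityMeasure (nu p t) := fun p => hν p p.2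
  have hl := law_blocks (fun p => nu p t) hν B hB hd
  have hm : Measurable (fun (ω : P → Ci) (j : Fin J) (q : B j) => ω ⟨q, hB j q.2⟩) :=
    measurable_pi_lambda _ fun j => measurable_pi_lambda _ fun q => measurable_pi_apply _
  have h1 : (QQ P t) {ω | ∀ j, (fun q : B j => ω ⟨q, hB j q.2⟩) ∈ G j} =
      ∏ j, (QQ (B j) t) (G j) := by
    have h2 : {ω : P → Ci | ∀ j, (fun q : B j => ω ⟨q, hB j q.2⟩) ∈ G j} =
        (fun (ω : P → Ci) (j : Fin J) (q : B j) => ω ⟨q, hB j q.2⟩) ⁻¹' (Set.univ.pi G) := by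
      ext ω
      simp [Set.mem_pi]
    unfold QQ
    rw [h2, ← Measure.map_apply hm (MeasurableSet.univ_pi hG), hl, Measure.pi_pi]
  have h3 : (QQ P t).real {ω | ∀ j, (fun q : B j => ω ⟨q, hB j q.2⟩) ∈ G j} =
      ∏ j, (QQ (B j) t).real (G j) := by
    rw [measureReal_def, h1, ENNReal.toReal_prod]
    rfl
  rw [h3]
  calc ∏ j, (QQ (B j) t).real (G j) ≤ ∏ _j : Fin J, κ :=
        Finset.prod_le_prod (fun _ _ => measureReal_nonneg) fun j _ => hGκ j
    _ = κ ^ J := by simp

end Pool.Agent.W646.NV
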