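import Pool.Agent.W184.NV.Defs

set_option autoImplicit false

/-!
# NV-TILT: the tilted product measure
-/

namespace Pool.Agent.W646.NV

open MeasureTheory Set
open scoped BigOperators
open scoped ENNReal
open Pool.Agent.W184.NV

/-! The next two lemmas are copied from Pool.Agent.Helper954.Hopf.PX. -/

theorem lintegral_pi_prod {J : Type} [Fintype J] [DecidableEq J] {X : J → Type}
    [∀ j, MeasurableSpace (X j)] (μ : ∀ j, Measure (X j)) [∀ j, SigmaFinite (μ j)]
    (f : ∀ j, X j → ℝ≥0∞) (hf : ∀ j, Measurable (f j)) :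
    ∫⁻ x, ∏ j, f j (x j) ∂Measure.pi μ = ∏ j, ∫⁻ x, f j x ∂μ j := by
  classical
  by_cases hne : Nonempty (∀ j, X j)
  · obtain ⟨x0⟩ := hne
    have hm : Measurable (fun x : ∀ j, X j => ∏ j, f j (x j)) :=
      Finset.measurable_prod _ fun j _ => (hf j).comp (measurable_pi_apply j)
    have key : ∀ s : Finset J, ∀ x : ∀ j, X j,
        (∫⋯∫⁻_s, (fun x : ∀ j, X j => ∏ j, f j (x j)) ∂μ) x
          = (∏ j ∈ s, ∫⁻ y, f j y ∂μ j) * ∏ j ∈ sᶜ, f j (x j) := by
      intro s
      induction s using Finset.induction_on with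
      | empty => intro x; rw [lmarginal_empty]; simp
      | insert i s hi ih =>
        intro x
        rw [lmarginal_insert _ hm hi]
        simp only [ih]
        have hc : sᶜ = insert i (insert i s)ᶜ := by
          ext j
          by_cases hj : j = i
          · subst hj; simp [hi]
          · simp [hj]
        have hni : i ∉ (insert i s)ᶜ := by simp
        have h1 : ∀ y : X i, ∏ j ∈ sᶜ, f j (Function.update x i y j)
            = f i y * ∏ j ∈ (insert i s)ᶜ, f j (x j) := by
          intro y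
          rw [hc, Finset.prod_insert hni, Function.update_self]
          congr 1
          apply Finset.prod_congr rfl
          intro j hj
          have : j ≠ i := by
            rintro rfl; exact hni hj
          rw [Function.update_of_ne this]
        simp only [h1]
        have h2 : Measurable (fun y : X i => f i y * ∏ j ∈ (insert i s)ᶜ, f j (x j)) :=
          (hf i).mul_const _
        rw [lintegral_const_mul _ h2, lintegral_mul_const _ (hf i), Finset.prod_insert hi]
        ring
    have := key Finset.univ x0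
    rw [← lintegral_eq_lmarginal_univ] at this
    rw [this]
    simp
  · rw [not_nonempty_iff] at hne
    have h0 : ∃ j, IsEmpty (X j) := by
      by_contra hc
      push Not at hc
      apply hne.false
      exact fun j => (hc j).some
    obtain ⟨j, hj⟩ := h0
    have h1 : ∏ j, ∫⁻ x, f j x ∂μ j = 0 := by
      apply Finset.prod_eq_zero (Finset.mem_univ j)
      rw [lintegral_of_isEmpty]
    rw [h1, lintegral_of_isEmpty]

theorem pi_withDensity {J : Type} [Fintype J] [DecidableEq J] {X : J → Type}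
    [∀ j, MeasurableSpace (X j)] (μ : ∀ j, Measure (X j)) [∀ j, SigmaFinite (μ j)]
    (f : ∀ j, X j → ℝ≥0∞) (hf : ∀ j, Measurable (f j)) (hft : ∀ j x, f j x ≠ ⊤) :
    Measure.pi (fun j => (μ j).withDensity (f j)) =
      (Measure.pi μ).withDensity (fun x => ∏ j, f j (x j)) := by
  have : ∀ j, SigmaFinite ((μ j).withDensity (f j)) := fun j =>
    SigmaFinite.withDensity_of_ne_top' (hft j)
  refine (Measure.pi_eq fun s hs => ?_)
  rw [withDensity_apply _ (MeasurableSet.univ_pi hs), Measure.restrict_pi_pi,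
    lintegral_pi_prod _ f hf]
  apply Finset.prod_congr rfl
  intro j _
  rw [withDensity_apply _ (hs j)]


/-- the point `p^(-(1/2+it))` -/
noncomputable def cc (p : ℕ) (t : ℝ) : ℂ := (p : ℂ) ^ (-(1 / 2 + t * Complex.I))

lemma norm_cc {p : ℕ} (hp : 0 < p) (t : ℝ) : ‖cc p t‖ ^ 2 = 1 / (p : ℝ) := by
  have hp' : (0 : ℝ) < p := by exact_mod_cast hp
  unfold cc
  rw [Complex.norm_natCast_cpow_of_pos hp]
  have : (-(1 / 2 + (t : ℂ) * Complex.I)).re = -(1 / 2 : ℝ) := by simp
  rw [this, ← Real.rpow_natCast, ← Real.rpow_mul hp'.le]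
  norm_num
  rw [Real.rpow_neg_one]

lemma norm_sq_one_add (z c : ℂ) (hz : ‖z‖ = 1) : ‖1 + z * c‖ ^ 2 = 1 + ‖c‖ ^ 2 + 2 * (z * c).re := by
  have h1 : ‖z * c‖ ^ 2 = ‖c‖ ^ 2 := by rw [norm_mul, hz, one_mul]
  have h2 := Complex.sq_norm (1 + z * c)
  have h3 := Complex.sq_norm (z * c)
  rw [h2, ← h1, h3, Complex.normSq_apply, Complex.normSq_apply]
  simp only [Complex.add_re, Complex.add_im, Complex.one_re, Complex.one_im]
  ring

/-- the density -/
noncomputable def dd (p : ℕ) (t : ℝ) (θ : Ci) : ℝ :=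
  ‖1 + ze θ * cc p t‖ ^ 2 / (1 + 1 / (p : ℝ))

lemma dd_nonneg (p : ℕ) (t : ℝ) (θ : Ci) : 0 ≤ dd p t θ := by
  unfold dd
  positivity

lemma dd_cont (hc : S_Circ) (p : ℕ) (t : ℝ) : Continuous (dd p t) := by
  unfold dd
  have := hc.2.1
  fun_prop

lemma nu_eq (p : ℕ) (t : ℝ) : nu p t = mu.withDensity fun θ => ENNReal.ofReal (dd p t θ) := rfl

lemma integral_dd (hc : S_Circ) {p : ℕ} (hp : p.Prime) (t : ℝ) : ∫ θ, dd p t θ ∂mu = 1 := by
  have hp' : (0 : ℝ) < p := by exact_mod_cast hp.pos
  have h1 : ∀ θ, dd p t θ = (1 + 1 / (p : ℝ))⁻¹ * (1 + 1 / (p : ℝ) + 2 * (ze θ * cc p t).re) := by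
    intro θ
    unfold dd
    rw [norm_sq_one_add _ _ (hc.1 θ), norm_cc hp.pos]
    field_simp
  have hci : Integrable (fun θ => ze θ * cc p t) mu := by
    have : Continuous fun θ => ze θ * cc p t := by
      have := hc.2.1
      fun_prop
    exact this.integrable_of_hasCompactSupport (HasCompactSupport.of_compactSpace _)
  have h2 : ∫ θ, (ze θ * cc p t).re ∂mu = 0 := by
    have e1 : ∫ θ, (ze θ * cc p t).re ∂mu = (∫ θ, ze θ * cc p t ∂mu).re :=
      integral_re hci
    have e2 : ∫ θ, ze θ * cc p t ∂mu = (∫ θ, ze θ ∂mu) * cc p t := integral_mul_const _ _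
    have e3 := hc.2.2 1 0
    simp only [pow_one, pow_zero, mul_one, one_ne_zero, if_false] at e3
    rw [e1, e2, e3]
    simp
  have hre : Integrable (fun θ => (ze θ * cc p t).re) mu := hci.re
  simp_rw [h1]
  rw [integral_const_mul, integral_add (integrable_const _) (hre.const_mul 2),
    integral_const_mul, h2]
  simp
  field_simp

lemma prob (hc : S_Circ) {p : ℕ} (hp : p.Prime) (t : ℝ) : IsProbabilityMeasure (nu p t) := by
  rw [isProbabilityMeasure_iff, nu_eq, withDensity_apply _ MeasurableSet.univ, setLIntegral_univ,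
    ← ofReal_integral_eq_lintegral_ofReal
      ((dd_cont hc p t).integrable_of_hasCompactSupport (HasCompactSupport.of_compactSpace _))
      (Filter.Eventually.of_forall (dd_nonneg p t)), integral_dd hc hp]
  simp

theorem tilt : S_Circ → S_Tilt := by
  intro hc
  refine ⟨fun p t hp => prob hc hp t, ?_⟩
  intro P hP t E hE
  classical
  have hQ : QQ P t = (mup P).withDensity
      (fun ω => ∏ p : P, ENNReal.ofReal (dd p t (ω p))) := by
    unfold QQ
    have := pi_withDensity (J := P) (X := fun _ => Ci) (fun _ => mu)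
      (fun p θ => ENNReal.ofReal (dd p t θ))
      (fun p => (ENNReal.continuous_ofReal.comp (dd_cont hc p t)).measurable)
      (fun p θ => ENNReal.ofReal_ne_top)
    exact this
  have hF : ∀ ω : P → Ci, (ZZ P)⁻¹ * ‖EF P ω (1 / 2 + t * Complex.I)‖ ^ 2 =
      ∏ p : P, dd p t (ω p) := by
    intro ω
    unfold ZZ EF dd
    rw [Finset.prod_div_distrib, norm_prod, Finset.prod_pow, ← Finset.prod_coe_sort P, mul_comm,
      ← div_eq_mul_inv]
    rfl
  have hcont : Continuous fun ω : P → Ci => ∏ p : P, dd p t (ω p) :=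
    continuous_finsetProd _ fun p _ => (dd_cont hc p t).comp (continuous_apply p)
  have hint : Integrable (fun ω : P → Ci => ∏ p : P, dd p t (ω p)) (mup P) :=
    hcont.integrable_of_hasCompactSupport (HasCompactSupport.of_compactSpace _)
  simp_rw [hF]
  have hnn : 0 ≤ᵐ[(mup P).restrict E] fun ω : P → Ci => ∏ p : P, dd p t (ω p) :=
    Filter.Eventually.of_forall fun ω => Finset.prod_nonneg fun p _ => dd_nonneg p t (ω p)
  rw [integral_eq_lintegral_of_nonneg_ae hnn
    hint.aestronglyMeasurable.restrict, measureReal_def, hQ, withDensity_apply _ hE]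
  congr 1
  apply lintegral_congr
  intro ω
  exact ENNReal.ofReal_prod_of_nonneg fun (p : P) _ => dd_nonneg p t (ω p)

end Pool.Agent.W646.NV
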